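import Pool.Agent.Run7.h177.GS.Main
import Pool.Agent.N155.B.Geo

/-!
Brody hyperbolic projective varieties are Picard hyperbolic (Kwack).
-/

set_option autoImplicit false

open MvPolynomial Metric Set Filter Topology LinearAlgebra.Projectivization

namespace Run7.h177.GS

open FF Pool.Agent.Y190.OP Pool.Agent.W602.GT Pool.Agent.TH143.GT Pool.Agent.N155 Pool.Agent.N155.BB
  Pool.Agent.TH182.TC

variable {n : ℕ}

theorem disc_bound {N : ℕ} {T : Set (Mat N)} (hT : IsCompact T) (hTP : T ⊆ PM)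
    (hno : ∀ H : ℂ → Mat N, HolP univ H → (∀ z, H z ∈ T) → ∀ z, H z = H 0) :
    ∃ C : ℝ, 0 < C ∧ ∀ Ψ : ℂ → Mat N, HolP (ball 0 1) Ψ →
      (∀ z ∈ ball (0 : ℂ) 1, Ψ z ∈ T) → ‖fderiv ℝ Ψ 0‖ ≤ C := by
  by_contra hcon
  push Not at hcon
  have h1 : ∀ m : ℕ, ∃ h : ℂ → Mat N, HolP (ball 0 (m + 1 : ℝ)) h ∧
      (∀ z ∈ ball (0 : ℂ) (m + 1 : ℝ), h z ∈ T) ∧
      (∀ z ∈ ball (0 : ℂ) ((m + 1 : ℝ) / 2), ‖fderiv ℝ h z‖ ≤ 2) ∧ ‖fderiv ℝ h 0‖ = 1 := by
    intro m
    obtain ⟨Ψ, hΨ, hΨS, hbig⟩ := hcon (2 * (m + 1 : ℝ)) (by positivity)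
    exact rescale (by positivity) hΨ (fun z hz => hΨS z hz) hbig
  choose h hH hHS hHd hH0 using h1
  set 𝓤 : Ultrafilter ℕ := hyperfilter ℕ with h𝓤
  have hcof : ∀ R : ℝ, ∀ᶠ n : ℕ in (𝓤 : Filter ℕ), R ≤ n := hyper_ge'
  have hlim : ∀ z : ℂ, ∃ M ∈ T, Tendsto (fun m => h m z) 𝓤 (𝓝 M) := by
    intro z
    have h1 : (𝓤.map (fun m => h m z) : Filter (Mat N)) ≤ 𝓟 T := by
      rw [Ultrafilter.coe_map, le_principal_iff, mem_map]
      filter_upwards [hcof ‖z‖] with m hm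
      exact hHS m z (mem_ball_zero_iff.2 (by linarith))
    obtain ⟨M, hM, hM'⟩ := hT.ultrafilter_le_nhds (𝓤.map (fun m => h m z)) h1
    exact ⟨M, hM, hM'⟩
  choose H hHmem hHt using hlim
  have hCC : ∀ R : ℝ, 0 < R → CConv (𝓤 : Filter ℕ) (ball 0 R) h H := by
    intro R hR z hz
    rw [Metric.tendsto_nhds]
    intro ε hε
    have h2 := Metric.tendsto_nhds.1 (hHt z) (ε / 2) (by positivity)
    have h3 := hcof (2 * R)
    rw [eventually_prod_iff]
    refine ⟨_, h2.and h3, fun w => w ∈ ball (0 : ℂ) R ∧ dist w z < ε / 4, ?_, ?_⟩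
    · have h4 : ∀ᶠ w in 𝓝 z, w ∈ ball (0 : ℂ) R := isOpen_ball.mem_nhds hz
      have h5 : ∀ᶠ w in 𝓝 z, dist w z < ε / 4 := ball_mem_nhds z (by positivity)
      exact h4.and h5
    · rintro m ⟨hn1, hn2⟩ w ⟨hw1, hw2⟩
      have h6 : ‖h m w - h m z‖ ≤ 2 * ‖w - z‖ := by
        have hsub : ball (0 : ℂ) R ⊆ ball (0 : ℂ) ((m + 1 : ℝ) / 2) :=
          ball_subset_ball (by linarith)
        have hsub2 : ball (0 : ℂ) R ⊆ ball (0 : ℂ) (m + 1 : ℝ) :=
          ball_subset_ball (by linarith)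
        exact (convex_ball (0 : ℂ) R).norm_image_sub_le_of_norm_fderiv_le
          (fun x hx => (hH m).differentiableAt (hsub2 hx))
          (fun x hx => hHd m x (hsub hx)) hz hw1
      calc dist (h m w) (H z) ≤ dist (h m w) (h m z) + dist (h m z) (H z) := dist_triangle _ _ _
        _ < ε / 2 + ε / 2 := by
            refine add_lt_add ?_ hn1
            rw [dist_eq_norm]
            rw [dist_eq_norm] at hw2
            linarith
        _ = ε := by ring
  have hev : ∀ R : ℝ, 0 < R → ∀ᶠ m in (𝓤 : Filter ℕ), HolP (ball 0 R) (h m) := by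
    intro R _
    filter_upwards [hcof R] with m hm
    exact (hH m).mono (ball_subset_ball (by linarith))
  have hl := fun (R : ℝ) (hR : 0 < R) => holP_limit isOpen_ball (hCC R hR)
    (hev R hR) (fun z _ => hTP (hHmem z))
  have hHol : HolP univ H := by
    intro z _
    exact (hl (‖z‖ + 1) (by positivity)).1 z (mem_ball_zero_iff.2 (by linarith))
  have hder : ∀ z, Tendsto (fun m => fderiv ℝ (h m) z) 𝓤 (𝓝 (fderiv ℝ H z)) := fun z =>
    (hl (‖z‖ + 1) (by positivity)).2 z (mem_ball_zero_iff.2 (by linarith))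
  have hc0 : ∀ z, H z = H 0 := hno H hHol hHmem
  have hc1 : fderiv ℝ H 0 = 0 := by
    have h2 : H = fun _ => H 0 := funext hc0
    rw [h2]
    exact fderiv_const_apply _
  have ht := hder 0
  rw [hc1] at ht
  have e1 := (ht.norm).eventually_lt_const (u := 1) (by simp)
  obtain ⟨m, hm⟩ := e1.exists
  rw [hH0 m] at hm
  exact lt_irrefl _ hm

/-- **Brody hyperbolic projective varieties are Picard hyperbolic.** -/
theorem picard_of_brody {ι : Type} {F : ι → MvPolynomial (Fin (n + 1)) ℂ}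
    (hF : ∀ i, IsForm (F i)) (hB : BrodyHyperbolic F) : PicardHyperbolic F := by
  obtain ⟨C, hC0, hC⟩ := disc_bound (T := TF F) (isCompact_TF hF) TF_PM fun H hH hHT z => by
    have h1 := hB (fun z => toProj (H z)) (holMap_of hH) (fun z => rep_toProj hF (hHT z)) z 0
    obtain ⟨u, hu, hHu⟩ := hHT z
    obtain ⟨v, hv, hHv⟩ := hHT 0
    simp only [← hHu, ← hHv] at h1 ⊢
    rw [toProj_Phi hu.1, toProj_Phi hv.1, Projectivization.mk_eq_mk_iff'] at h1
    obtain ⟨a, ha⟩ := h1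
    have ha0 : a ≠ 0 := by
      rintro rfl
      rw [zero_smul] at ha
      exact hu.1 ha.symm
    rw [← ha, Phi_smul ha0]
  intro p hp hX
  have hol : HolP (ball 0 1 \ {0}) fun z => Phi (p z).rep := holP_of_mapOn hp
  have hmem : ∀ z ∈ ball (0 : ℂ) 1 \ {0}, Phi (p z).rep ∈ TF F := fun z hz => ⟨_, hX z hz, rfl⟩
  obtain ⟨P, hPT, hP⟩ := exists_puncture (isCompact_TF hF) TF_PM hol hmem
    (osc := fun r => C / (-Real.log r) * (2 * Real.pi)) (by
      have h1 : Tendsto (fun r => -Real.log r) (𝓝[>] 0) atTop :=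
        tendsto_neg_atBot_atTop.comp Real.tendsto_log_nhdsGT_zero
      have h2 := (h1.const_div_atTop C).mul_const (2 * Real.pi)
      rwa [zero_mul] at h2)
    (fun z1 z2 h12 h0 h1 => circle_osc hC hol hmem h12 h0 h1)
  have hext := holP_extend hol (TF_PM hPT) hP
  obtain ⟨u, hu, hPu⟩ := hPT
  classical
  set g : ℂ → ℙ ℂ (Fin (n + 1) → ℂ) := Function.update p 0 (Projectivization.mk ℂ u hu.1) with hg
  have hg0 : g 0 = Projectivization.mk ℂ u hu.1 := Function.update_self _ _ _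
  have hgz : ∀ z, z ≠ 0 → g z = p z := fun z hz => Function.update_of_ne hz _ _
  refine ⟨g, mapOn_of_holP ?_, fun z hz => hgz z hz.2⟩
  have h1 : (fun z => Phi (g z).rep) = Function.update (fun z => Phi (p z).rep) 0 P := by
    funext z
    by_cases h0 : z = 0
    · rw [h0, hg0, Function.update_self, ← hPu]
      obtain ⟨c, hc, hcr⟩ := mk_rep_smul hu.1
      rw [hcr, Phi_smul hc]
    · rw [hgz z h0, Function.update_of_ne h0]
  rw [h1]
  exact hext

/-- Picard hyperbolic projective varieties are Brody hyperbolic. -/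
theorem brody_of_picard {ι : Type} {F : ι → MvPolynomial (Fin (n + 1)) ℂ}
    (hB : PicardHyperbolic F) : BrodyHyperbolic F := by
  intro p hp hX z w
  exact const_of_ext hp (hB _ (comp_exp hp 0) fun w _ => hX _) z w

theorem brody_iff_picard {ι : Type} {F : ι → MvPolynomial (Fin (n + 1)) ℂ}
    (hF : ∀ i, IsForm (F i)) : BrodyHyperbolic F ↔ PicardHyperbolic F :=
  ⟨picard_of_brody hF, brody_of_picard⟩

end Run7.h177.GS
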