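import Pool.Agent.Run7.h418.R.SpDefs
import Pool.Agent.R869.WMordDefs
import Pool.Agent.N155.L.OEnd

/-!
Holomorphic maps from the punctured disc, and pseudo-Picard hyperbolic projective varieties.
-/

set_option autoImplicit false

open Metric Pool.Agent.TH182.TC Pool.Agent.W602.GT Pool.Agent.N155

namespace Run7.h177.GS

variable {n : ℕ}

/-- The punctured unit disc. -/
def PDisc : Set ℂ := ball 0 1 \ {0}

/-- The holomorphic map `p` from the punctured disc to projective space extends to a holomorphic map
from the disc. -/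
def Ext (p : ℂ → PS n) : Prop :=
  ∃ h : ℂ → PS n, HolMapOn (ball 0 1) h ∧ ∀ z ∈ PDisc, h z = p z

/-- The projective variety `V` with generic point `y` is pseudo-Picard hyperbolic: some form `G`
which does not vanish on `V` vanishes on the images of all holomorphic maps `p` from the punctured
disc to `V` which do not extend to the disc. -/
def PseudoPicard {K : Type} [Field K] [Algebra ℂ K] (y : Fin (n + 1) → K) : Prop :=
  ∃ G : MvPolynomial (Fin (n + 1)) ℂ, IsForm G ∧ val y G ≠ 0 ∧
    ∀ p : ℂ → PS n, HolMapOn PDisc p → (∀ z ∈ PDisc, (p z).rep ∈ VarPts ℂ y) → ¬ Ext p →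
      ∀ z ∈ PDisc, MvPolynomial.eval (p z).rep G = 0

/-- All holomorphic maps from the punctured disc to `X = {F = 0}` extend to the disc. -/
def PicardHyperbolic {ι : Type} (F : ι → MvPolynomial (Fin (n + 1)) ℂ) : Prop :=
  ∀ p : ℂ → PS n, HolMapOn PDisc p → (∀ z ∈ PDisc, (p z).rep ∈ Cone F) → Ext p

end Run7.h177.GS
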