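import Pool.Agent.Run7.h177.GS.Defs
import Pool.Agent.Run7.h418.U.Fin
import Pool.Agent.N155.L.OFin
import Pool.Agent.N155.Ini

/-!
The generalized Green-Griffiths-Lang conjecture for varieties whose symmetric differentials generate
a symmetric power of the cotangent sheaf.
-/

set_option autoImplicit false

open MvPolynomial Metric Set Filter Topology LinearAlgebra.Projectivization

namespace Run7.h177.GS

open Pool.Agent.Y190.OP Pool.Agent.W602.GT Pool.Agent.N155 Pool.Agent.TH182.TC Run7.h418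

variable {n : ℕ}

theorem comp_exp {p : ℂ → PS n} (hp : HolMap p) (a : ℂ) :
    HolMapOn PDisc fun w => p (a + Complex.exp w⁻¹) := by
  intro w hw
  have hw0 : w ≠ 0 := hw.2
  obtain ⟨V, g, hV, hzV, hd, hg⟩ := hp (a + Complex.exp w⁻¹)
  have hcd : ∀ u : ℂ, u ≠ 0 → DifferentiableAt ℂ (fun u : ℂ => a + Complex.exp u⁻¹) u := fun u hu =>
    ((differentiableAt_inv hu).cexp).const_add a
  have hcont : ContinuousOn (fun u : ℂ => a + Complex.exp u⁻¹) {0}ᶜ := fun u hu =>
    (hcd u hu).continuousAt.continuousWithinAt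
  refine ⟨{0}ᶜ ∩ (fun u : ℂ => a + Complex.exp u⁻¹) ⁻¹' V, fun u => g (a + Complex.exp u⁻¹),
    hcont.isOpen_inter_preimage isOpen_compl_singleton hV, ⟨hw0, hzV⟩, ?_, fun u hu => hg _ hu.2⟩
  intro u hu
  exact ((hd _ hu.2).differentiableAt (hV.mem_nhds hu.2)).comp u (hcd u hu.1)
    |>.differentiableWithinAt

theorem seq_tendsto (ζ : ℂ) : Tendsto (fun k : ℕ => (ζ + 2 * Real.pi * Complex.I * k)⁻¹) atTop
    (𝓝 0) := by
  have h1 : Tendsto (fun k : ℕ => ‖ζ + 2 * Real.pi * Complex.I * k‖) atTop atTop := by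
    have h2 : ∀ k : ℕ, 2 * Real.pi * k - ‖ζ‖ ≤ ‖ζ + 2 * Real.pi * Complex.I * k‖ := by
      intro k
      have h3 : ‖(2 * Real.pi * Complex.I * k : ℂ)‖ = 2 * Real.pi * k := by
        rw [norm_mul, norm_mul, norm_mul, Complex.norm_I, Complex.norm_real, Complex.norm_natCast,
          Complex.norm_ofNat, Real.norm_of_nonneg Real.pi_pos.le]
        ring
      have h4 := norm_sub_norm_le (2 * Real.pi * Complex.I * k : ℂ) (-ζ)
      rw [h3, norm_neg, sub_neg_eq_add, add_comm (2 * Real.pi * Complex.I * k : ℂ) ζ] at h4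
      exact h4
    refine tendsto_atTop_mono h2 ?_
    refine tendsto_atTop_add_const_right _ _ ?_
    exact (tendsto_natCast_atTop_atTop).const_mul_atTop (by positivity)
  have h2 := tendsto_inv_atTop_zero.comp h1
  rw [tendsto_zero_iff_norm_tendsto_zero]
  refine h2.congr fun k => ?_
  rw [Function.comp_apply, norm_inv]

theorem const_of_ext {p : ℂ → PS n} (hp : HolMap p) {a : ℂ}
    (h : Ext fun w => p (a + Complex.exp w⁻¹)) (z w : ℂ) : p z = p w := by
  obtain ⟨q, hq, he⟩ := h
  have hol : HolP univ (fun z => Phi (p z).rep) := holP_of_map hp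
  have hcont : Continuous fun z => Phi (p z).rep :=
    continuous_iff_continuousAt.2 fun _ => hol.continuousAt (mem_univ _)
  have hq1 : ContinuousAt (fun z => Phi (q z).rep) 0 :=
    (holP_of_mapOn hq).continuousAt (mem_ball_self one_pos)
  have key : ∀ c : ℂ, c ≠ a → Phi (p c).rep = Phi (q 0).rep := by
    intro c hc
    set ζ : ℂ := Complex.log (c - a) with hζ
    have hexp : Complex.exp ζ = c - a := Complex.exp_log (sub_ne_zero.2 hc)
    have h1 := seq_tendsto ζ
    have h2 : Tendsto (fun k : ℕ => Phi (q (ζ + 2 * Real.pi * Complex.I * k)⁻¹).rep) atTop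
        (𝓝 (Phi (q 0).rep)) := hq1.tendsto.comp h1
    have h3 : ∀ᶠ k : ℕ in atTop, Phi (q (ζ + 2 * Real.pi * Complex.I * k)⁻¹).rep =
        Phi (p c).rep := by
      have h4 := h1.eventually (isOpen_ball.mem_nhds (mem_ball_self (x := (0 : ℂ)) one_pos))
      have h5 : ∀ᶠ k : ℕ in atTop, ζ + 2 * Real.pi * Complex.I * k ≠ 0 := by
        have h6 : ∀ᶠ k : ℕ in atTop, ‖ζ‖ / (2 * Real.pi) < k :=
          tendsto_natCast_atTop_atTop.eventually (eventually_gt_atTop _)
        filter_upwards [h6] with k hk h0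
        have h7 : ζ = -(2 * Real.pi * Complex.I * k) := eq_neg_of_add_eq_zero_left h0
        have h8 : ‖ζ‖ = 2 * Real.pi * k := by
          rw [h7, norm_neg, norm_mul, norm_mul, norm_mul, Complex.norm_I, Complex.norm_real,
            Complex.norm_natCast, Complex.norm_ofNat, Real.norm_of_nonneg Real.pi_pos.le]
          ring
        rw [div_lt_iff₀ (by positivity), h8] at hk
        linarith [mul_comm (k : ℝ) (2 * Real.pi)]
      filter_upwards [h4, h5] with k hk hk0
      rw [he _ ⟨hk, inv_ne_zero hk0⟩]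
      simp only
      rw [inv_inv, Complex.exp_add]
      have h6 : Complex.exp (2 * Real.pi * Complex.I * k) = 1 := by
        rw [mul_comm, Complex.exp_nat_mul, Complex.exp_two_pi_mul_I, one_pow]
      rw [h6, mul_one, hexp, add_sub_cancel]
    exact tendsto_nhds_unique (tendsto_const_nhds.congr' (h3.mono fun _ h => h.symm)) h2
  have key2 : ∀ c, Phi (p c).rep = Phi (q 0).rep := by
    have h1 : (fun c => Phi (p c).rep) = fun _ => Phi (q 0).rep :=
      Continuous.ext_on (dense_compl_singleton a) hcont continuous_const fun c hc => key c hc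
    exact fun c => congrFun h1 c
  rw [← (p z).mk_rep, ← (p w).mk_rep]
  have h2 := eq_of_Phi (p w).rep_nonzero ((key2 z).trans (key2 w).symm)
  rw [Projectivization.mk_rep] at h2 ⊢
  rw [h2, Projectivization.mk_rep]

/-- A pseudo-Picard hyperbolic variety is pseudo-Brody hyperbolic. -/
theorem pseudoBrody_of_picard {K : Type} [Field K] [Algebra ℂ K] {y : Fin (n + 1) → K}
    (h : PseudoPicard y) : PseudoBrody y := by
  obtain ⟨G, hG, hG0, h1⟩ := h
  refine ⟨G, hG, hG0, fun p hp hX hne z => ?_⟩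
  have hw : (2 * Real.pi * Complex.I)⁻¹ ∈ PDisc := by
    have hn : ‖(2 * Real.pi * Complex.I : ℂ)‖ = 2 * Real.pi := by
      rw [norm_mul, norm_mul, Complex.norm_I, Complex.norm_real, Complex.norm_ofNat,
        Real.norm_of_nonneg Real.pi_pos.le, mul_one]
    refine ⟨?_, ?_⟩
    · rw [mem_ball_zero_iff, norm_inv, hn]
      apply inv_lt_one_of_one_lt₀
      have := Real.pi_gt_three
      linarith
    · intro h0
      rw [mem_singleton_iff, inv_eq_zero] at h0
      rw [h0, norm_zero] at hn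
      have := Real.pi_pos
      linarith
  have h2 := h1 (fun w => p (z - 1 + Complex.exp w⁻¹)) (comp_exp hp _) (fun w _ => hX _)
    (fun he => by
      obtain ⟨u, v, huv⟩ := hne
      exact huv (const_of_ext hp he u v)) _ hw
  simp only [inv_inv, Complex.exp_two_pi_mul_I, sub_add_cancel] at h2
  exact h2

section gen

variable {ι κ : Type} {F : ι → MvPolynomial (Fin (n + 1)) ℂ} {m : ℕ}
  {σ : κ → (Fin (n + 1) → ℂ) → (Fin (n + 1) → ℂ) → ℂ} {K : Type} [Field K] [Algebra ℂ K]
  {w : ℕ} {y : Fin (n + 1) → K}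

open Pool.Agent.R869.Wd (StronglyGeneral OnVar)

/-- **General type and strongly of general type.** -/
theorem strongly_iff [Fintype κ] (hF : ∀ i, IsForm (F i)) (hm : 0 < m)
    (hσ : ∀ j, SymForm F m (σ j)) (hgen : Generates F m σ) (hw : 0 < w) (hy : SubVar F K w y) :
    GeneralType ℂ K w ↔ StronglyGeneral ℂ y := by
  constructor
  · intro h
    obtain ⟨G, hG, hG0, h1⟩ := (U.general_iff_torus hF hm hσ hgen hw hy).1 h
    refine ⟨G, hG, hG0, fun L _ _ t z ht hc hd hz hGz => ?_⟩
    have hsub : SubVar F L t z :=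
      ⟨Function.ne_iff.2 hz.1, fun i => hz.2 (F i) (hF i) (hy.mem i), hc, hd⟩
    refine R.general_of_pseudoTorus hF hm hσ hgen ht hsub
      ⟨G, hG, hGz, fun q b g hg hX hper hne s => h1 q b g hg (fun u => ?_) hper hne s⟩
    exact ⟨(hX u).1, fun Q hQ hQ0 => (hX u).2 Q hQ (hz.2 Q hQ hQ0)⟩
  · rintro ⟨G, hG, hG0, h1⟩
    exact h1 K w y hw hy.gen hy.dim ⟨Function.ne_iff.1 hy.ne, fun Q _ hQ => hQ⟩ hG0

end gen

end Run7.h177.GS
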